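import Pool.Agent.V1192.SemiAmen
import Pool.Agent.V1192.L1

/-!
# MP_98688b_an: approximate semi-amenability does not imply its bounded version

The example is `ℓ¹(I × I)`, `I = ℕ × ℕ`, with the sandwich product
`e (i, j) * e (k, m) = b j k • e (i, m)` for a suitable matrix `b`.
-/

open Filter Topology Pool.Agent.V1192.SemiAmen Pool.Agent.V1192.L1

namespace Pool.Agent.Results.MP_98688b_an.NotBounded

noncomputable section

/-- The index set of rows and columns. -/
abbrev I : Type := ℕ × ℕ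

/-- The sandwich matrix. -/
def bb (j k : I) : ℂ :=
  if j.1 = k.1 then
    (if j.2 = 0 then (if k.2 = 0 then 1 / ((j.1 : ℂ) + 1) else 1)
      else (if j.2 = k.2 then 1 / (j.2 : ℂ) else 0))
  else 0

theorem norm_bb_le (j k : I) : ‖bb j k‖ ≤ 1 := by
  unfold bb
  split_ifs with h1 h2 h3 h4
  · rw [norm_div, norm_one]
    have : ‖(j.1 : ℂ) + 1‖ = (j.1 : ℝ) + 1 := by
      have h5 : (j.1 : ℂ) + 1 = (((j.1 : ℝ) + 1 : ℝ) : ℂ) := by push_cast; rfl
      rw [h5, Complex.norm_real, Real.norm_of_nonneg (by positivity)]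
    rw [this, div_le_one (by positivity)]
    have : (0 : ℝ) ≤ j.1 := Nat.cast_nonneg _
    linarith
  · simp
  · rw [norm_div, norm_one, Complex.norm_natCast]
    have : (1 : ℝ) ≤ j.2 := by exact_mod_cast Nat.one_le_iff_ne_zero.2 h2
    rw [div_le_one (by linarith)]
    exact this
  · simp
  · simp

/-- Multiplication by a basis vector from the left. -/
def inner (p : I × I) : L1 (I × I) →L[ℂ] L1 (I × I) :=
  lift (fun q => bb p.2 q.1 • e (p.1, q.2)) 1 (fun q => by
    rw [norm_smul, norm_e, mul_one]; exact norm_bb_le _ _)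

/-- The multiplication. -/
def mulL : L1 (I × I) →L[ℂ] L1 (I × I) →L[ℂ] L1 (I × I) :=
  lift inner 1 (fun _ => norm_lift_le _ _ _ zero_le_one)

theorem mulL_e (p q : I × I) : mulL (e p) (e q) = bb p.2 q.1 • e (p.1, q.2) := by
  rw [mulL, lift_e, inner, lift_e]

theorem mulL_assoc (a b c : L1 (I × I)) : mulL (mulL a b) c = mulL a (mulL b c) := by
  have h1 : ∀ p q, mulL (mulL (e p) (e q)) = (mulL (e p)).comp (mulL (e q)) := by
    intro p q
    refine ext_e (fun r => ?_)
    rw [mulL_e, map_smul, smul_apply, mulL_e]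
    change _ = mulL (e p) (mulL (e q) (e r))
    rw [mulL_e, map_smul, mulL_e]
    simp only
    rw [smul_smul, smul_smul, mul_comm]
  have h2 : ∀ p c, (mulL.flip c).comp (mulL (e p)) = (mulL (e p)).comp (mulL.flip c) := by
    intro p c
    refine ext_e (fun q => ?_)
    exact DFunLike.congr_fun (h1 p q) c
  have h3 : ∀ b c, (mulL.flip c).comp (mulL.flip b) = mulL.flip (mulL b c) := by
    intro b c
    refine ext_e (fun p => ?_)
    exact DFunLike.congr_fun (h2 p c) b
  exact DFunLike.congr_fun (h3 b c) a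

theorem norm_mulL_le (a b : L1 (I × I)) : ‖mulL a b‖ ≤ ‖a‖ * ‖b‖ := by
  have h : ‖mulL‖ ≤ 1 := norm_lift_le _ _ _ zero_le_one
  refine (mulL.le_opNorm₂ a b).trans ?_
  have := mul_nonneg (norm_nonneg a) (norm_nonneg b)
  nlinarith

theorem mulL_add (a b c : L1 (I × I)) : mulL (a + b) c = mulL a c + mulL b c := by
  rw [map_add, add_apply]

theorem mulL_zero (a : L1 (I × I)) : mulL 0 a = 0 := by
  rw [map_zero, zero_apply]

theorem mulL_smul (c : ℂ) (a b : L1 (I × I)) : mulL (c • a) b = c • mulL a b := by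
  rw [map_smul, smul_apply]

/-- The Banach algebra. -/
def A : Type := L1 (I × I)

instance instNACG : NormedAddCommGroup A := inferInstanceAs (NormedAddCommGroup (L1 (I × I)))

instance instNUNR : NonUnitalNormedRing A :=
  { (inferInstance : NormedAddCommGroup A) with
    mul := fun a b => mulL a b
    left_distrib := fun a b c => map_add (mulL a) b c
    right_distrib := mulL_add
    zero_mul := mulL_zero
    mul_zero := fun a => map_zero (mulL a)
    mul_assoc := mulL_assoc
    norm_mul_le := norm_mulL_le }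

instance instNS : NormedSpace ℂ A := inferInstanceAs (NormedSpace ℂ (L1 (I × I)))

instance instCS : CompleteSpace A := inferInstanceAs (CompleteSpace (L1 (I × I)))

instance : IsScalarTower ℂ A A := ⟨mulL_smul⟩

instance : SMulCommClass ℂ A A := ⟨fun c a b => (map_smul (mulL a) c b).symm⟩

/-- The basis of `A`. -/
def ee (p : I × I) : A := e p

theorem ee_mul (p q : I × I) : ee p * ee q = bb p.2 q.1 • ee (p.1, q.2) := mulL_e p q

theorem norm_ee (p : I × I) : ‖ee p‖ = 1 := norm_e p

section Maps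

variable {Y : Type*} [NormedAddCommGroup Y] [NormedSpace ℂ Y]

theorem A_ext {S T : A →L[ℂ] Y} (h : ∀ i, S (ee i) = T (ee i)) : S = T :=
  ext_e (ι := I × I) (S := S) (T := T) h

theorem A_norm {T : A →L[ℂ] Y} {C : ℝ} (hC : 0 ≤ C) (h : ∀ i, ‖T (ee i)‖ ≤ C) : ‖T‖ ≤ C :=
  norm_le_of_e (ι := I × I) (T := T) hC h

variable [CompleteSpace Y]

/-- Operators on `A` with prescribed values on the basis. -/
def A_lift (T : I × I → Y) (C : ℝ) (hT : ∀ i, ‖T i‖ ≤ C) : A →L[ℂ] Y := lift T C hT

theorem A_lift_ee (T : I × I → Y) (C : ℝ) (hT : ∀ i, ‖T i‖ ≤ C) (i : I × I) :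
    A_lift T C hT (ee i) = T i := lift_e T C hT i

theorem A_tendsto {κ : Type*} {l : Filter κ} [l.IsCountablyGenerated]
    (T : κ → A →L[ℂ] Y) (S : A →L[ℂ] Y)
    (C : ℝ) (hT : ∀ k i, ‖T k (ee i)‖ ≤ C)
    (h : ∀ i, Tendsto (fun k => T k (ee i)) l (𝓝 (S (ee i))))
    (a : A) : Tendsto (fun k => T k a) l (𝓝 (S a)) :=
  tendsto_of_e (ι := I × I) T S C hT h a

end Maps

/-- Left multiplication as an operator, linear in the element. -/
abbrev mul : A →L[ℂ] A →L[ℂ] A := ContinuousLinearMap.mul ℂ A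

theorem bb_col0 (t : ℕ) (j : I) : bb j (t, 0) = if j = (t, 0) then 1 / ((t : ℂ) + 1) else 0 := by
  obtain ⟨s, m⟩ := j
  simp only [bb, Prod.mk.injEq]
  by_cases h1 : s = t
  · by_cases h2 : m = 0
    · simp [h1, h2]
    · simp [h1, h2]
  · simp [h1]

theorem bb_col (t n : ℕ) (hn : n ≠ 0) (j : I) :
    bb j (t, n) = if j = (t, 0) then 1 else (if j = (t, n) then 1 / (n : ℂ) else 0) := by
  obtain ⟨s, m⟩ := j
  simp only [bb, Prod.mk.injEq]
  by_cases h1 : s = t
  · by_cases h2 : m = 0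
    · simp [h1, h2, hn]
    · by_cases h3 : m = n
      · simp [h1, h3, hn]
      · simp [h1, h2, h3]
  · simp [h1]

theorem bb_row (t n : ℕ) (hn : n ≠ 0) (k : I) :
    bb (t, n) k = if k = (t, n) then 1 / (n : ℂ) else 0 := by
  obtain ⟨s, m⟩ := k
  simp only [bb, Prod.mk.injEq]
  by_cases h1 : s = t
  · by_cases h3 : m = n
    · simp [h1, h3, hn]
    · simp [h1, h3, hn, Ne.symm h3]
  · simp [h1, Ne.symm h1]

theorem bb_row0 (t : ℕ) (k : I) :
    bb (t, 0) k = if k.1 = t then (if k.2 = 0 then 1 / ((t : ℂ) + 1) else 1) else 0 := by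
  obtain ⟨s, m⟩ := k
  simp only [bb]
  by_cases h1 : s = t
  · simp [h1]
  · simp [h1, Ne.symm h1]

/-- The right approximate identity, one column at a time. -/
def uu (l : I) : A :=
  if l.2 = 0 then ((l.1 : ℂ) + 1) • ee (l, l)
  else (l.2 : ℂ) • (ee (l, l) - ((l.1 : ℂ) + 1) • ee ((l.1, 0), l))

theorem natCast_add_one_ne (t : ℕ) : (t : ℂ) + 1 ≠ 0 := by exact_mod_cast Nat.succ_ne_zero t

theorem ee_mul_uu (p : I × I) (l : I) : ee p * uu l = if p.2 = l then ee p else 0 := by
  obtain ⟨i, j⟩ := p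
  obtain ⟨t, n⟩ := l
  have ht := natCast_add_one_ne t
  by_cases hn : n = 0
  · subst hn
    simp only [uu, if_true, mul_smul_comm, ee_mul, bb_col0]
    split_ifs with h
    · subst h
      rw [smul_smul, mul_one_div_cancel ht, one_smul]
    · simp
  · have hn' : (n : ℂ) ≠ 0 := by exact_mod_cast hn
    simp only [uu, if_neg hn, mul_smul_comm, mul_sub, ee_mul, bb_col0, bb_col t n hn]
    by_cases h1 : j = (t, 0)
    · subst h1
      have h2 : ((t, 0) : I) ≠ (t, n) := by simp [Ne.symm hn]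
      simp only [if_true, if_neg h2, one_smul, smul_smul, mul_one_div_cancel ht, sub_self,
        smul_zero]
    · by_cases h2 : j = (t, n)
      · subst h2
        simp only [if_true, if_neg h1, zero_smul, smul_zero, sub_zero, smul_smul,
          mul_one_div_cancel hn', one_smul]
      · simp [h1, h2]

/-- The right approximate identity. -/
def uN (N : ℕ) : A := ∑ l ∈ Finset.range N ×ˢ Finset.range N, uu l

theorem ee_mul_uN (p : I × I) (N : ℕ) :
    ee p * uN N = if p.2 ∈ Finset.range N ×ˢ Finset.range N then ee p else 0 := by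
  rw [uN, Finset.mul_sum]
  simp only [ee_mul_uu, Finset.sum_ite_eq]

theorem eventually_mem (l : I) :
    ∀ᶠ N : ℕ in atTop, l ∈ Finset.range N ×ˢ Finset.range N := by
  filter_upwards [eventually_gt_atTop l.1, eventually_gt_atTop l.2] with N h1 h2
  rw [Finset.mem_product, Finset.mem_range, Finset.mem_range]
  exact ⟨h1, h2⟩

theorem right_ai (a : A) : Tendsto (fun N => a * uN N) atTop (𝓝 a) := by
  refine A_tendsto (fun N => mul.flip (uN N)) (ContinuousLinearMap.id ℂ A) 1 (fun N p => ?_)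
    (fun p => ?_) a
  · change ‖ee p * uN N‖ ≤ 1
    rw [ee_mul_uN]
    split_ifs
    · exact (norm_ee p).le
    · simp
  · change Tendsto (fun N => ee p * uN N) atTop (𝓝 (ee p))
    refine tendsto_const_nhds.congr' ?_
    filter_upwards [eventually_mem p.2] with N hN
    rw [ee_mul_uN, if_pos hN]

/-- The left approximate identity, one row at a time. -/
def vv (k : I) (M : ℕ) : A :=
  if k.2 = 0 then ((k.1 : ℂ) + 1) •
    (ee (k, k) - ∑ n ∈ Finset.range M, ((n : ℂ) + 1) • ee (k, (k.1, n + 1)))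
  else (k.2 : ℂ) • ee (k, k)

theorem vv_mul_ee (k : I) (M : ℕ) (q : I × I) :
    vv k M * ee q = (if q.1 = k then ee q else 0)
      + (if k.2 = 0 ∧ q.1.1 = k.1 ∧ M < q.1.2 then ((k.1 : ℂ) + 1) • ee (k, q.2) else 0) := by
  obtain ⟨t, n⟩ := k
  obtain ⟨⟨s, m⟩, j⟩ := q
  have ht := natCast_add_one_ne t
  by_cases hn : n = 0
  · subst hn
    have hsum : (∑ n ∈ Finset.range M, ((n : ℂ) + 1) • ee ((t, 0), (t, n + 1))) * ee ((s, m), j)
        = (∑ n ∈ Finset.range M, ((n : ℂ) + 1) * bb (t, n + 1) (s, m)) • ee ((t, 0), j) := by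
      rw [Finset.sum_mul, Finset.sum_smul]
      refine Finset.sum_congr rfl (fun n _ => ?_)
      rw [smul_mul_assoc, ee_mul, smul_smul]
    have hsum2 : (∑ n ∈ Finset.range M, ((n : ℂ) + 1) * bb (t, n + 1) (s, m))
        = if s = t ∧ m ≠ 0 ∧ m ≤ M then 1 else 0 := by
      have h1 : ∀ n ∈ Finset.range M, ((n : ℂ) + 1) * bb (t, n + 1) (s, m)
          = if n = m - 1 then (if s = t ∧ m ≠ 0 then 1 else 0) else 0 := by
        intro n _
        rw [bb_row t (n + 1) (Nat.succ_ne_zero n)]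
        have hn1 := natCast_add_one_ne n
        by_cases h2 : s = t ∧ m = n + 1
        · obtain ⟨rfl, rfl⟩ := h2
          simp [hn1]
        · have h3 : ((s, m) : I) ≠ (t, n + 1) := by
            intro h4
            exact h2 ⟨congrArg Prod.fst h4, congrArg Prod.snd h4⟩
          rw [if_neg h3, mul_zero]
          by_cases h4 : n = m - 1
          · rw [if_pos h4, if_neg]
            rintro ⟨h5, h6⟩
            apply h2
            refine ⟨h5, by omega⟩
          · rw [if_neg h4]
      rw [Finset.sum_congr rfl h1, Finset.sum_ite_eq']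
      by_cases h2 : s = t ∧ m ≠ 0
      · by_cases h3 : m ≤ M
        · rw [if_pos (Finset.mem_range.2 (by omega)), if_pos h2, if_pos ⟨h2.1, h2.2, h3⟩]
        · rw [if_neg, if_neg]
          · exact fun h => h3 h.2.2
          · rw [Finset.mem_range]; omega
      · have h3 : ¬ (s = t ∧ m ≠ 0 ∧ m ≤ M) := fun h => h2 ⟨h.1, h.2.1⟩
        rw [if_neg h2, if_neg h3]
        simp
    simp only [vv, if_true, smul_mul_assoc, sub_mul, hsum, hsum2, ee_mul, bb_row0]
    by_cases hs : s = t
    · subst hs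
      by_cases hm : m = 0
      · subst hm
        simp only [if_true, ne_eq, not_true_eq_false, false_and, and_false, if_false,
          zero_smul, sub_zero, smul_smul, mul_one_div_cancel ht, one_smul, not_lt_zero,
          add_zero]
      · have h5 : ((s, m) : I) ≠ (s, 0) := by simp [hm]
        by_cases hM : m ≤ M
        · simp [hm, hM, Nat.not_lt.2 hM]
        · simp [hm, hM, Nat.lt_of_not_ge hM]
    · have h5 : ((s, m) : I) ≠ (t, 0) := by simp [hs]
      simp [hs]
  · have hn' : (n : ℂ) ≠ 0 := by exact_mod_cast hn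
    simp only [vv, if_neg hn, smul_mul_assoc, ee_mul, bb_row t n hn]
    by_cases h1 : ((s, m) : I) = (t, n)
    · rw [if_pos h1, if_pos h1, smul_smul, mul_one_div_cancel hn', one_smul, h1]
      simp [hn]
    · rw [if_neg h1, if_neg h1]
      simp [hn]

/-- The projection on a row. -/
def SS (k : I) : A →L[ℂ] A := A_lift (fun q => if q.1 = k then ee q else 0) 1 (fun q => by
  split_ifs
  · exact (norm_ee q).le
  · simp)

theorem SS_ee (k : I) (q : I × I) : SS k (ee q) = if q.1 = k then ee q else 0 := A_lift_ee _ _ _ _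

theorem vv_tendsto (k : I) (a : A) : Tendsto (fun M => vv k M * a) atTop (𝓝 (SS k a)) := by
  refine A_tendsto (fun M => mul (vv k M)) (SS k) (1 + (k.1 + 1)) (fun M q => ?_)
    (fun q => ?_) a
  · change ‖vv k M * ee q‖ ≤ _
    rw [vv_mul_ee]
    refine (norm_add_le _ _).trans (add_le_add ?_ ?_)
    · split_ifs
      · exact (norm_ee q).le
      · simp
    · split_ifs
      · rw [norm_smul, norm_ee, mul_one]
        have h5 : (k.1 : ℂ) + 1 = (((k.1 : ℝ) + 1 : ℝ) : ℂ) := by push_cast; rfl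
        rw [h5, Complex.norm_real, Real.norm_of_nonneg (by positivity)]
      · rw [norm_zero]; positivity
  · change Tendsto (fun M => vv k M * ee q) atTop (𝓝 (SS k (ee q)))
    refine tendsto_const_nhds.congr' ?_
    filter_upwards [eventually_ge_atTop q.1.2] with M hM
    have h3 : ¬ (k.2 = 0 ∧ q.1.1 = k.1 ∧ M < q.1.2) := fun h => absurd h.2.2 (Nat.not_lt.2 hM)
    rw [vv_mul_ee, SS_ee, if_neg h3, add_zero]

theorem SS_tendsto (a : A) :
    Tendsto (fun N => ∑ k ∈ Finset.range N ×ˢ Finset.range N, SS k a) atTop (𝓝 a) := by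
  have hval : ∀ (N : ℕ) (q : I × I),
      (∑ k ∈ Finset.range N ×ˢ Finset.range N, SS k) (ee q)
        = if q.1 ∈ Finset.range N ×ˢ Finset.range N then ee q else 0 := by
    intro N q
    rw [sum_apply]
    simp only [SS_ee, Finset.sum_ite_eq]
  have h := A_tendsto (l := atTop) (fun N => ∑ k ∈ Finset.range N ×ˢ Finset.range N, SS k)
    (ContinuousLinearMap.id ℂ A) 1 (fun N q => ?_) (fun q => ?_) a
  · simp only [sum_apply] at h
    exact h
  · rw [hval]
    split_ifs
    · exact (norm_ee q).le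
    · simp
  · change Tendsto _ atTop (𝓝 (ee q))
    refine tendsto_const_nhds.congr' ?_
    filter_upwards [eventually_mem q.1] with N hN
    rw [hval, if_pos hN]

theorem exists_right {κ : Type*} [Fintype κ] (a : κ → A) {ε : ℝ} (hε : 0 < ε) :
    ∃ u, ∀ i, ‖a i - a i * u‖ < ε := by
  have h1 : ∀ i, ∀ᶠ N in atTop, ‖a i - a i * uN N‖ < ε := by
    intro i
    filter_upwards [(Metric.tendsto_nhds.1 (right_ai (a i))) ε hε] with N hN
    rwa [dist_comm, dist_eq_norm] at hN
  obtain ⟨N, hN⟩ := (Filter.eventually_all.2 h1).exists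
  exact ⟨uN N, hN⟩

theorem exists_left {κ : Type*} [Fintype κ] (a : κ → A) {ε : ℝ} (hε : 0 < ε) :
    ∃ v, ∀ i, ‖a i - v * a i‖ < ε := by
  have h1 : ∀ i, ∀ᶠ N in atTop,
      ‖a i - ∑ k ∈ Finset.range N ×ˢ Finset.range N, SS k (a i)‖ < ε / 2 := by
    intro i
    filter_upwards [(Metric.tendsto_nhds.1 (SS_tendsto (a i))) (ε / 2) (by positivity)] with N hN
    rwa [dist_comm, dist_eq_norm] at hN
  obtain ⟨N, hN⟩ := (Filter.eventually_all.2 h1).exists
  have h2 : ∀ i, ∀ᶠ M in atTop, ‖(∑ k ∈ Finset.range N ×ˢ Finset.range N, SS k (a i))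
      - (∑ k ∈ Finset.range N ×ˢ Finset.range N, vv k M) * a i‖ < ε / 2 := by
    intro i
    have h3 : Tendsto (fun M => (∑ k ∈ Finset.range N ×ˢ Finset.range N, vv k M) * a i) atTop
        (𝓝 (∑ k ∈ Finset.range N ×ˢ Finset.range N, SS k (a i))) := by
      simp only [Finset.sum_mul]
      exact tendsto_finsetSum _ (fun k _ => vv_tendsto k (a i))
    filter_upwards [(Metric.tendsto_nhds.1 h3) (ε / 2) (by positivity)] with M hM
    rwa [dist_comm, dist_eq_norm] at hM
  obtain ⟨M, hM⟩ := (Filter.eventually_all.2 h2).exists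
  refine ⟨∑ k ∈ Finset.range N ×ˢ Finset.range N, vv k M, fun i => ?_⟩
  have h3 := norm_sub_le_norm_sub_add_norm_sub (a i)
    (∑ k ∈ Finset.range N ×ˢ Finset.range N, SS k (a i))
    ((∑ k ∈ Finset.range N ×ˢ Finset.range N, vv k M) * a i)
  have h4 := hN i
  have h5 := hM i
  linarith

/-- The base index. -/
def o : I := (0, 0)

theorem bb_oo : bb o o = 1 := by
  unfold o
  rw [bb_col0]; simp

theorem ee_split (p : I × I) : ee (p.1, o) * ee (o, p.2) = ee p := by
  rw [ee_mul, bb_oo, one_smul]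

section Derivations

variable {X : Type} [NormedAddCommGroup X] [NormedSpace ℂ X] (M : Bimod A X)

/-- The left action on the dual. -/
def actL : A →L[ℂ] StrongDual ℂ X →L[ℂ] StrongDual ℂ X :=
  ((ContinuousLinearMap.compL ℂ X X ℂ).flip).comp M.r

/-- The right action on the dual. -/
def actR : A →L[ℂ] StrongDual ℂ X →L[ℂ] StrongDual ℂ X :=
  ((ContinuousLinearMap.compL ℂ X X ℂ).flip).comp M.l

theorem actL_apply (a : A) (f : StrongDual ℂ X) : actL M a f = M.dl a f := rfl

theorem actR_apply (a : A) (f : StrongDual ℂ X) : actR M a f = M.dr a f := rfl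

theorem actL_mul (a b : A) (f : StrongDual ℂ X) :
    actL M (a * b) f = actL M a (actL M b f) := by
  ext x
  change f (M.r (a * b) x) = f (M.r b (M.r a x))
  rw [M.r_mul]

theorem actR_mul (a b : A) (f : StrongDual ℂ X) :
    actR M (a * b) f = actR M b (actR M a f) := by
  ext x
  change f (M.l (a * b) x) = f (M.l a (M.l b x))
  rw [M.l_mul]

variable (D : A →L[ℂ] StrongDual ℂ X)

theorem norm_actL_ee (p : I × I) (f : StrongDual ℂ X) : ‖actL M (ee p) f‖ ≤ ‖f‖ * ‖M.r‖ := by
  change ‖f.comp (M.r (ee p))‖ ≤ _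
  refine (ContinuousLinearMap.opNorm_comp_le _ _).trans ?_
  refine mul_le_mul_of_nonneg_left ?_ (norm_nonneg _)
  refine (M.r.le_opNorm _).trans ?_
  rw [norm_ee, mul_one]

theorem norm_actR_ee (p : I × I) (f : StrongDual ℂ X) : ‖actR M (ee p) f‖ ≤ ‖f‖ * ‖M.l‖ := by
  change ‖f.comp (M.l (ee p))‖ ≤ _
  refine (ContinuousLinearMap.opNorm_comp_le _ _).trans ?_
  refine mul_le_mul_of_nonneg_left ?_ (norm_nonneg _)
  refine (M.l.le_opNorm _).trans ?_
  rw [norm_ee, mul_one]

theorem norm_D_ee (p : I × I) : ‖D (ee p)‖ ≤ ‖D‖ := by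
  refine (D.le_opNorm _).trans ?_
  rw [norm_ee, mul_one]

/-- The left module part of a derivation. -/
def RR : A →L[ℂ] StrongDual ℂ X :=
  A_lift (fun p => actL M (ee (p.1, o)) (D (ee (o, p.2)))) (‖D‖ * ‖M.r‖) (fun _ =>
    (norm_actL_ee M _ _).trans (mul_le_mul_of_nonneg_right (norm_D_ee D _)
      (ContinuousLinearMap.opNorm_nonneg _)))

/-- The right module part of a derivation. -/
def LL : A →L[ℂ] StrongDual ℂ X :=
  A_lift (fun p => actR M (ee (o, p.2)) (D (ee (p.1, o)))) (‖D‖ * ‖M.l‖) (fun _ =>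
    (norm_actR_ee M _ _).trans (mul_le_mul_of_nonneg_right (norm_D_ee D _)
      (ContinuousLinearMap.opNorm_nonneg _)))

theorem RR_ee (p : I × I) : RR M D (ee p) = actL M (ee (p.1, o)) (D (ee (o, p.2))) :=
  A_lift_ee _ _ _ _

theorem LL_ee (p : I × I) : LL M D (ee p) = actR M (ee (o, p.2)) (D (ee (p.1, o))) :=
  A_lift_ee _ _ _ _

theorem D_eq (hD : M.IsDeriv D) : D = RR M D + LL M D := by
  refine A_ext (fun p => ?_)
  rw [add_apply, RR_ee, LL_ee]
  conv_lhs => rw [← ee_split p]
  exact hD _ _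

theorem RR_mul (a b : A) : RR M D (a * b) = actL M a (RR M D b) := by
  have h1 : ∀ p, (RR M D).comp (mul (ee p)) = (actL M (ee p)).comp (RR M D) := by
    intro p
    refine A_ext (fun q => ?_)
    change RR M D (ee p * ee q) = actL M (ee p) (RR M D (ee q))
    rw [ee_mul, map_smul, RR_ee, RR_ee, ← actL_mul, ee_mul, map_smul, smul_apply]
  have h2 : (RR M D).comp (mul.flip b) = (actL M).flip (RR M D b) := by
    refine A_ext (fun p => ?_)
    exact DFunLike.congr_fun (h1 p) b
  exact DFunLike.congr_fun h2 a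

theorem LL_mul (a b : A) : LL M D (a * b) = actR M b (LL M D a) := by
  have h1 : ∀ q, (LL M D).comp (mul.flip (ee q)) = (actR M (ee q)).comp (LL M D) := by
    intro q
    refine A_ext (fun p => ?_)
    change LL M D (ee p * ee q) = actR M (ee q) (LL M D (ee p))
    rw [ee_mul, map_smul, LL_ee, LL_ee, ← actR_mul, ee_mul, map_smul, smul_apply]
  have h2 : (LL M D).comp (mul a) = (actR M).flip (LL M D a) := by
    refine A_ext (fun q => ?_)
    exact DFunLike.congr_fun (h1 q) a
  exact DFunLike.congr_fun h2 b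

end Derivations

/-- `A` is approximately semi-amenable. -/
theorem asa_A : ASA A := by
  intro X _ _ _ M D hD
  refine Bimod.isApproxSemiInner_of_finite (fun ι _ a ε hε => ?_)
  set C : ℝ := ‖RR M D‖ + ‖LL M D‖ + 1 with hC
  have hC0 : 0 < C := by positivity
  obtain ⟨u, hu⟩ := exists_right a (by positivity : 0 < ε / C)
  obtain ⟨v, hv⟩ := exists_left a (by positivity : 0 < ε / C)
  refine ⟨RR M D u, - LL M D v, fun i => ?_⟩
  have h0 : D (a i) = RR M D (a i) + LL M D (a i) := by
    have := DFunLike.congr_fun (D_eq M D hD) (a i)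
    rwa [add_apply] at this
  have h1 : D (a i) - (M.dl (a i) (RR M D u) - M.dr (a i) (- LL M D v))
      = RR M D (a i - a i * u) + LL M D (a i - v * a i) := by
    rw [← actL_apply, ← actR_apply, map_neg, ← RR_mul, ← LL_mul, map_sub, map_sub, h0]
    abel
  rw [h1]
  have hR0 : 0 ≤ ‖RR M D‖ := ContinuousLinearMap.opNorm_nonneg _
  have hL0 : 0 ≤ ‖LL M D‖ := ContinuousLinearMap.opNorm_nonneg _
  calc ‖RR M D (a i - a i * u) + LL M D (a i - v * a i)‖
      ≤ ‖RR M D (a i - a i * u)‖ + ‖LL M D (a i - v * a i)‖ := norm_add_le _ _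
    _ ≤ ‖RR M D‖ * ‖a i - a i * u‖ + ‖LL M D‖ * ‖a i - v * a i‖ :=
      add_le_add (ContinuousLinearMap.le_opNorm _ _) (ContinuousLinearMap.le_opNorm _ _)
    _ ≤ ‖RR M D‖ * (ε / C) + ‖LL M D‖ * (ε / C) :=
      add_le_add (mul_le_mul_of_nonneg_left (hu i).le hR0)
        (mul_le_mul_of_nonneg_left (hv i).le hL0)
    _ < C * (ε / C) := by
      rw [hC]
      have : 0 < ε / C := by positivity
      rw [hC] at this
      nlinarith
    _ = ε := by field_simp

/-- The bimodule `A*` with the zero right action. -/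
def MB : Bimod A (StrongDual ℂ A) where
  l := ((ContinuousLinearMap.compL ℂ A A ℂ).flip).comp mul.flip
  r := 0
  l_mul a b f := by
    ext x
    change f (x * (a * b)) = f (x * a * b)
    rw [mul_assoc]
  r_mul a b f := by simp
  comm a b f := by simp

theorem MB_l (a : A) (f : StrongDual ℂ A) (x : A) : MB.l a f x = f (x * a) := rfl

/-- The canonical embedding of `A` in `A**`. -/
def DB : A →L[ℂ] StrongDual ℂ (StrongDual ℂ A) := NormedSpace.inclusionInDoubleDual ℂ A

theorem DB_apply (a : A) (f : StrongDual ℂ A) : DB a f = f a := rfl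

theorem DB_deriv : MB.IsDeriv DB := by
  intro a b
  ext f
  change f (a * b) = DB b (MB.r a f) + DB a (MB.l b f)
  have h1 : MB.r a f = 0 := rfl
  rw [h1, map_zero, zero_add, DB_apply, MB_l]

/-- A coordinate functional. -/
def φ (p : I × I) : StrongDual ℂ A :=
  A_lift (fun q => if q = p then 1 else 0) 1 (fun q => by split_ifs <;> simp)

theorem φ_ee (p q : I × I) : φ p (ee q) = if q = p then 1 else 0 := A_lift_ee _ _ _ _

theorem norm_φ_le (p : I × I) : ‖φ p‖ ≤ 1 :=
  A_norm zero_le_one (fun q => by rw [φ_ee]; split_ifs <;> simp)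

theorem not_bddASA : ¬ BddASA A := by
  intro hA
  obtain ⟨K, κ, _, _, _, ξ, η, hK, hlim⟩ := hA (StrongDual ℂ A) MB DB DB_deriv
  -- choose `t` large
  obtain ⟨t, ht⟩ := exists_nat_gt (2 * (K + 1))
  set f : StrongDual ℂ A := φ ((t, 0), o) with hf
  set a : A := ee ((t, 0), o) with ha
  have hval : ∀ (b : A) (i : κ), (MB.dl b (ξ i) - MB.dr b (η i)) f = - η i (MB.l b f) := by
    intro b i
    change ξ i (MB.r b f) - η i (MB.l b f) = _
    have h1 : MB.r b f = 0 := rfl
    rw [h1, map_zero, zero_sub]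
  have hfn : ‖f‖ ≤ 1 := norm_φ_le _
  obtain ⟨i, hi⟩ := ((Metric.tendsto_nhds.1 (hlim a)) (1 / 2) (by norm_num)).exists
  rw [dist_eq_norm] at hi
  have h1 : 1 / 2 < ‖η i (MB.l a f)‖ := by
    have h2 : ((MB.dl a (ξ i) - MB.dr a (η i)) - DB a) f = - η i (MB.l a f) - 1 := by
      rw [sub_apply, hval, DB_apply, hf, ha, φ_ee, if_pos rfl]
    have h3 : ‖((MB.dl a (ξ i) - MB.dr a (η i)) - DB a) f‖ < 1 / 2 := by
      refine lt_of_le_of_lt (ContinuousLinearMap.le_opNorm _ _) ?_
      refine lt_of_le_of_lt (mul_le_mul_of_nonneg_left hfn (norm_nonneg _)) ?_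
      rwa [mul_one]
    rw [h2] at h3
    have h4 := norm_sub_norm_le (1 : ℂ) (- η i (MB.l a f))
    rw [norm_one, norm_sub_rev, norm_neg] at h4
    linarith
  have h2 : ∀ N : ℕ, N ≠ 0 → ‖((t : ℂ) + 1) • MB.l a f - MB.l (ee ((t, N), o)) f‖
      ≤ 1 / (N : ℝ) := by
    intro N hN
    refine A_norm (by positivity) (fun p => ?_)
    rw [sub_apply, smul_apply, MB_l, MB_l, ha, ee_mul, ee_mul, map_smul, map_smul, smul_eq_mul,
      smul_eq_mul, smul_eq_mul, bb_col0, bb_col t N hN]
    have ht0 := natCast_add_one_ne t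
    by_cases h3 : p.2 = (t, 0)
    · rw [if_pos h3, if_pos h3, one_mul, ← mul_assoc, mul_one_div_cancel ht0, one_mul, sub_self,
        norm_zero]
      positivity
    · rw [if_neg h3, if_neg h3, zero_mul, mul_zero, zero_sub, norm_neg]
      by_cases h4 : p.2 = (t, N)
      · rw [if_pos h4, norm_mul, norm_div, norm_one, Complex.norm_natCast]
        have h5 : ‖f (ee (p.1, o))‖ ≤ 1 := by
          rw [hf, φ_ee]
          split_ifs <;> simp
        exact mul_le_of_le_one_right (by positivity) h5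
      · rw [if_neg h4, zero_mul, norm_zero]
        positivity
  have h3 : ∀ N : ℕ, ‖η i (MB.l (ee ((t, N), o)) f)‖ ≤ K := by
    intro N
    have h4 := hK i (ee ((t, N), o))
    rw [norm_ee, mul_one] at h4
    have h5 : ‖(MB.dl (ee ((t, N), o)) (ξ i) - MB.dr (ee ((t, N), o)) (η i)) f‖ ≤ K := by
      refine (ContinuousLinearMap.le_opNorm _ _).trans ?_
      calc _ ≤ ‖MB.dl (ee ((t, N), o)) (ξ i) - MB.dr (ee ((t, N), o)) (η i)‖ * 1 :=
            mul_le_mul_of_nonneg_left hfn (norm_nonneg _)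
        _ ≤ K := by rw [mul_one]; exact h4
    rwa [hval, norm_neg] at h5
  obtain ⟨N, hN⟩ := exists_nat_gt ‖η i‖
  have hN0 : (0 : ℝ) < N := lt_of_le_of_lt (norm_nonneg _) hN
  have hN1 : N ≠ 0 := by
    rintro rfl
    simp at hN0
  have h4 : ‖η i (((t : ℂ) + 1) • MB.l a f - MB.l (ee ((t, N), o)) f)‖ ≤ 1 := by
    refine ((η i).le_opNorm _).trans ?_
    refine (mul_le_mul_of_nonneg_left (h2 N hN1) (norm_nonneg _)).trans ?_
    rw [mul_one_div, div_le_one hN0]
    exact hN.le
  rw [map_sub, map_smul, smul_eq_mul] at h4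
  have h5 := norm_sub_norm_le (((t : ℂ) + 1) * η i (MB.l a f)) (η i (MB.l (ee ((t, N), o)) f))
  have h6 : ‖((t : ℂ) + 1) * η i (MB.l a f)‖ = ((t : ℝ) + 1) * ‖η i (MB.l a f)‖ := by
    rw [norm_mul]
    have h7 : (t : ℂ) + 1 = (((t : ℝ) + 1 : ℝ) : ℂ) := by push_cast; rfl
    rw [h7, Complex.norm_real, Real.norm_of_nonneg (by positivity)]
  have h7 := h3 N
  rw [h6] at h5
  have h8 : (0 : ℝ) ≤ t := Nat.cast_nonneg _
  nlinarith

/-- **MP_98688b_an, Q1, answer yes.** There is an approximately semi-amenable Banach algebra that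
is not boundedly approximately semi-amenable. -/
theorem result : ∃ (A : Type) (_ : NonUnitalNormedRing A) (_ : NormedSpace ℂ A),
    IsScalarTower ℂ A A ∧ SMulCommClass ℂ A A ∧ CompleteSpace A ∧ ASA A ∧ ¬ BddASA A :=
  ⟨A, inferInstance, inferInstance, inferInstance, inferInstance, inferInstance, asa_A,
    not_bddASA⟩

end

end Pool.Agent.Results.MP_98688b_an.NotBounded
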